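import Pool.Agent.Y885.KP3

/-!
# The Liouville function at the values of arbitrary polynomials times linear factors, the constant terms of which are
corrected by very few elements of arbitrary sets which meet every interval `[x, l x]`

The proof is `Pool.Agent.Y885.las_kptq` (a library theorem of the starting point which no starting result uses) together
with the multiplicativity of the Liouville function.
-/

set_option autoImplicit false

namespace Pool.Agent.Results.MP_648c71_nt.ElementsOfAnySets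

open Finset

/-- The Liouville function on the integers, `λ(-m) = λ(m)` and `λ(0) = 0`. -/
def lam (m : ℤ) : ℤ := if m = 0 then 0 else (-1) ^ ArithmeticFunction.cardFactors m.natAbs

/-- The sum of `λ(F(t))` over the `1 ≤ t ≤ X` with `t ≡ r mod q`, where `F` is the product of the polynomial `f` and of the
polynomials `α i T + a i`, `i ∈ I`. -/
noncomputable def lamSum {s : ℕ} (f : Polynomial ℤ) (α a : Fin s → ℕ) (I : Finset (Fin s)) (q r X : ℕ) : ℤ :=
  ∑ t ∈ (Icc 1 X).filter (fun t => t ≡ r [MOD q]),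
    lam ((f * ∏ i ∈ I, (Polynomial.C (α i : ℤ) * Polynomial.X + Polynomial.C (a i : ℤ))).eval (t : ℤ))

/-- For all `l ≥ 2`, `P ≥ 1`, `κ` and `U` there is a constant `C` such that for all `H` and `B` there is an `N₀` with the
following property. Let `N ≥ N₀` and `2 ^ s ≤ log ^ κ N`. Let `A 1, ..., A s` be arbitrary sets of integers each of
which contains an element of every interval `[x, l x]`, `x ≥ 1` (`C` and `N₀` do not depend on these sets), let
`0 ≤ h 1, ..., h s ≤ B N` and `α 1, ..., α s ≥ 1` be arbitrary integers, and let `f m`, where `m` ranges over at most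
`log ^ κ N` indices, be arbitrary polynomials with integer coefficients (of any degree). Then there are sets `S i` of at
most `C (log log N) ^ 2` elements of `A i`, all between `log ^ H N` and `N / log ^ H N`, with a sum divisible by `P`, such
that the sums `a i` of `h i` and of the elements of `S i` satisfy `|∑ λ(F(t))| ≤ N / log ^ U N` for all `m` and all
nonempty sets `I` of indices, where `F = f m * ∏ i ∈ I, (α i T + a i)`, the sum over the `1 ≤ t ≤ X` with `t ≡ r mod q`,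
for all residue classes `r` modulo all `q ≤ log ^ κ N` and all `X` with `α i X ≤ B N` for all `i ∈ I`. -/
theorem result (l P κ U : ℕ) (hl : 2 ≤ l) (hP : 1 ≤ P) : ∃ C : ℝ, ∀ H B : ℕ, ∃ N₀ : ℕ, ∀ N : ℕ, N₀ ≤ N →
    ∀ s : ℕ, (2 : ℝ) ^ s ≤ Real.log N ^ κ →
    ∀ A : Fin s → Set ℕ, (∀ i, ∀ x : ℕ, 1 ≤ x → ∃ a ∈ A i, x ≤ a ∧ a ≤ l * x) →
    ∀ h : Fin s → ℕ, (∀ i, h i ≤ B * N) → ∀ α : Fin s → ℕ, (∀ i, 1 ≤ α i) →
    ∀ L : ℕ, (L : ℝ) ≤ Real.log N ^ κ → ∀ f : Fin L → Polynomial ℤ,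
    ∃ S : Fin s → Finset ℕ, (∀ i, ∀ a ∈ S i, a ∈ A i ∧ Real.log N ^ H ≤ a ∧ (a : ℝ) ≤ N / Real.log N ^ H) ∧
      (∀ i, ((S i).card : ℝ) ≤ C * Real.log (Real.log N) ^ 2) ∧ (∀ i, P ∣ ∑ a ∈ S i, a) ∧
      ∀ m, ∀ I : Finset (Fin s), I.Nonempty → ∀ q : ℕ, 1 ≤ q → (q : ℝ) ≤ Real.log N ^ κ → ∀ r : ℕ,
        ∀ X : ℕ, (∀ i ∈ I, α i * X ≤ B * N) →
        |((lamSum (f m) α (fun i => h i + ∑ a ∈ S i, a) I q r X : ℤ) : ℝ)| ≤ N / Real.log N ^ U := by
  classical
  obtain ⟨C, hC⟩ := Pool.Agent.Y885.las_kptq l P κ U hl hP Pool.Agent.Y885.laR Pool.Agent.Y885.fine_lam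
  refine ⟨C, fun H B => ?_⟩
  obtain ⟨N₀, h0⟩ := hC H B
  refine ⟨N₀ + 3, fun N hN s hs A hA h hh α hα L hL f => ?_⟩
  have hLog1 : 1 ≤ Real.log (N : ℝ) := by
    have h3 : (3 : ℝ) ≤ N := by exact_mod_cast (by omega : 3 ≤ N)
    rw [Real.le_log_iff_exp_le (by linarith)]
    exact (Real.exp_one_lt_d9.le.trans (by norm_num)).trans h3
  obtain ⟨S, h1, h2, h3, h4⟩ := h0 s A hA N (by omega) hs h hh L hL α
    (fun m n => (((Pool.Agent.Y885.laZ ((f m).eval (n : ℤ)) : ℤ) : ℝ) : ℂ)) hα (by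
      intro m n _ _
      refine le_trans ?_ (one_le_pow₀ hLog1)
      rw [Complex.norm_real, Real.norm_eq_abs]
      exact Pool.Agent.Y885.laZ_abs _)
  refine ⟨S, h1, h2, h3, fun m I hI q hq hq2 r X hX => ?_⟩
  refine le_trans (le_of_eq ?_) (h4 m I hI q hq hq2 r X hX)
  rw [← Real.norm_eq_abs, ← Complex.norm_real]
  congr 1
  unfold lamSum
  push_cast
  apply sum_congr rfl
  intro t ht
  have ht1 : 1 ≤ t := (mem_Icc.1 (mem_filter.1 ht).1).1
  obtain ⟨a, ha⟩ : ∃ a : Fin s → ℕ, a = fun i => h i + ∑ a ∈ S i, a := ⟨_, rfl⟩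
  have har : ∀ i, h i + ∑ a ∈ S i, a = a i := fun i => by rw [ha]
  have har2 : ∀ i, (h i : ℤ) + ∑ a ∈ S i, (a : ℤ) = (a i : ℤ) := fun i => by
    rw [← har]
    push_cast
    rfl
  simp only [har, har2]
  have e1 : lam ((f m * ∏ i ∈ I, (Polynomial.C (α i : ℤ) * Polynomial.X + Polynomial.C (a i : ℤ))).eval (t : ℤ)) =
      Pool.Agent.Y885.laZ ((f m).eval (t : ℤ)) * ∏ i ∈ I, Pool.Agent.Y885.laZ (((α i * t + a i : ℕ)) : ℤ) := by
    rw [Polynomial.eval_mul, Polynomial.eval_prod]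
    change Pool.Agent.Y885.laZ _ = _
    rw [Pool.Agent.Y885.laZ_mul, Pool.Agent.Y885.laZ_prod]
    congr 1
    apply prod_congr rfl
    intro i _
    congr 1
    rw [Polynomial.eval_add, Polynomial.eval_mul, Polynomial.eval_C, Polynomial.eval_C, Polynomial.eval_X]
    push_cast
    rfl
  have e2 : ∀ i ∈ I, ((Pool.Agent.Y885.laZ (((α i * t + a i : ℕ)) : ℤ) : ℤ) : ℝ) =
      Pool.Agent.Y885.laR (α i * t + a i) := by
    intro i _
    have h7 := Nat.mul_pos (hα i) ht1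
    exact Pool.Agent.Y885.laZ_pos _ (by omega)
  have e3 := prod_congr (rfl : I = I) e2
  have e4 : ((lam ((f m * ∏ i ∈ I, (Polynomial.C (α i : ℤ) * Polynomial.X + Polynomial.C (a i : ℤ))).eval (t : ℤ)) : ℤ) : ℝ) =
      ((Pool.Agent.Y885.laZ ((f m).eval (t : ℤ)) : ℤ) : ℝ) * ∏ i ∈ I, Pool.Agent.Y885.laR (α i * t + a i) := by
    rw [e1]
    push_cast at e3 ⊢
    rw [e3]
  have e5 := congrArg (fun x : ℝ => (x : ℂ)) e4
  push_cast at e5 ⊢
  exact e5

end Pool.Agent.Results.MP_648c71_nt.ElementsOfAnySets
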