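import Pool.Agent.R501.CP3

/-!
# The Liouville function at the values of arbitrary polynomials times linear factors, the constant terms of which are
values of quadratic polynomials at integers with restricted digits

The analytic input is the theorem on correlations along such integers of the library (`Pool.Agent.R459.Fams2`, helper459).
-/

set_option autoImplicit false

namespace Pool.Agent.Results.MP_648c71_nt.QuadraticConstants

open Finset

/-- The Liouville function on the integers, `λ(-m) = λ(m)` and `λ(0) = 0`. -/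
def lam (m : ℤ) : ℤ := if m = 0 then 0 else (-1) ^ ArithmeticFunction.cardFactors m.natAbs

/-- The integers below `b ^ k` whose `j`-th digit in base `b` lies in the set `D j` for all `j < k`. -/
def S (b : ℕ) (D : ℕ → Finset ℕ) (k : ℕ) : Finset ℕ :=
  (range (b ^ k)).filter (fun n : ℕ => ∀ j < k, n / b ^ j % b ∈ D j)

/-- The sum of `λ(F(t))` over the integers `t` with `u ≤ t ≤ v` and `t ≡ r mod q`, where `F` is the product of the
polynomial `f` and of the polynomials `α i T + a i`, `i ∈ I`. -/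
noncomputable def lamSum {s : ℕ} (f : Polynomial ℤ) (α : Fin s → ℕ) (a : Fin s → ℤ) (I : Finset (Fin s)) (q : ℕ)
    (r u v : ℤ) : ℤ :=
  ∑ t ∈ (Icc u v).filter (fun t => t ≡ r [ZMOD q]),
    lam ((f * ∏ i ∈ I, (Polynomial.C (α i : ℤ) * Polynomial.X + Polynomial.C (a i))).eval t)

/-- All the sums are small: for all `l`, all nonempty sets `I` of indices, all residue classes `r` modulo `q ≤ k ^ κ` and
all integers `u`, `v` with `α i |u| ≤ B N` and `α i |v| ≤ B N` for all `i ∈ I`, the sum of `λ(F(t))` over the `t` with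
`u ≤ t ≤ v` and `t ≡ r mod q` is at most `N / k ^ U` in absolute value, where `F = f l * ∏ i ∈ I, (α i T + a i)`. -/
def Small (B κ U N k : ℕ) {s L : ℕ} (f : Fin L → Polynomial ℤ) (α : Fin s → ℕ) (a : Fin s → ℤ) : Prop :=
  ∀ l, ∀ I : Finset (Fin s), I.Nonempty → ∀ q : ℕ, 1 ≤ q → q ≤ k ^ κ → ∀ r u v : ℤ,
    (∀ i ∈ I, (α i : ℤ) * |u| ≤ B * N ∧ (α i : ℤ) * |v| ≤ B * N) →
    |((lamSum (f l) α a I q r u v : ℤ) : ℝ)| ≤ N / (k : ℝ) ^ U

open Classical in
/-- Let `b ≥ 2`, `B`, `κ` and `U` be fixed, let `k` be large, `N = b ^ (2 k)` and `2 ^ s ≤ k ^ κ`. For `i < s` let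
`D i 0, ..., D i (k - 1)` be arbitrary sets of at least two digits in base `b`. Let `|c i| ≤ B N`, `γ i ≠ 0` with
`|γ i| ≤ B`, `|β i| ≤ B` and `α i ≥ 1` be arbitrary integers for `i < s`, and let `f l`, where `l` ranges over at most
`k ^ κ` indices, be arbitrary polynomials with integer coefficients (of any degree). Then for all the `s`-tuples
`(m 1, ..., m s)` of integers below `b ^ k` such that the `j`-th digit of `m i` lies in `D i j` for all `i` and `j`, up to
a proportion of `1 / k ^ U` of them, the integers `a i = c i + γ i (m i) ^ 2 + β i (m i)` have the following property: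
`|∑ λ(F(t))| ≤ N / k ^ U` for all `l` and all nonempty sets `I` of indices, where `F = f l * ∏ i ∈ I, (α i T + a i)`, the
sum over the `t ≡ r mod q` in an arbitrary interval `[u, v]` with `α i |u|, α i |v| ≤ B N` for all `i ∈ I`, for all
residue classes `r` modulo all `q ≤ k ^ κ`. -/
theorem result (b B κ U : ℕ) (hb : 2 ≤ b) : ∃ k₀ : ℕ, ∀ k : ℕ, k₀ ≤ k → ∀ s L : ℕ, 2 ^ s ≤ k ^ κ → L ≤ k ^ κ →
    ∀ D : Fin s → ℕ → Finset ℕ, (∀ i, ∀ j < k, D i j ⊆ range b ∧ 2 ≤ (D i j).card) →
    ∀ c γ β : Fin s → ℤ, (∀ i, |c i| ≤ B * (b : ℤ) ^ (2 * k)) → (∀ i, γ i ≠ 0 ∧ |γ i| ≤ B) → (∀ i, |β i| ≤ B) →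
    ∀ α : Fin s → ℕ, (∀ i, 1 ≤ α i) → ∀ f : Fin L → Polynomial ℤ,
      (((Fintype.piFinset fun i : Fin s => S b (D i) k).filter fun m =>
        ¬ Small B κ U (b ^ (2 * k)) k f α (fun i => c i + γ i * (m i : ℤ) ^ 2 + β i * (m i : ℤ))).card : ℝ) ≤
      (∏ i : Fin s, ((S b (D i) k).card : ℝ)) / (k : ℝ) ^ U := by
  obtain ⟨k₀, h0⟩ := Pool.Agent.R501.CP.quad_chowla b B κ U hb
  refine ⟨k₀, fun k hk s L hs hL D hD c γ β hc hγ hβ α hα f => ?_⟩
  have h1 := h0 k hk s L hs hL D hD c γ β hc hγ hβ α hα f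
  rw [Pool.Agent.R459.Fams.count_eq, Fintype.card_piFinset] at h1
  push_cast at h1
  exact h1

end Pool.Agent.Results.MP_648c71_nt.QuadraticConstants
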