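import Mathlib
import Pool.Agent.H376R2.LMain

/-!
# The Liouville function at the values of completely split polynomials of odd degree

The proof rests on the starting files `Pool.Agent.H376R2` (`main_L`).
-/

set_option autoImplicit false

namespace Pool.Agent.Results.MP_648c71_nt.SplitPolynomialsBothSigns

open Finset Polynomial

/-- the Liouville function on the integers, `lam (-m) = lam m`, `lam 0 = 0` -/
noncomputable def lam (m : ℤ) : ℤ :=
  if m = 0 then 0 else (-1) ^ ArithmeticFunction.cardFactors m.natAbs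

lemma lam_mul (m n : ℤ) : lam (m * n) = lam m * lam n := by
  unfold lam
  by_cases hm : m = 0
  · simp [hm]
  · by_cases hn : n = 0
    · simp [hn]
    · rw [if_neg (mul_ne_zero hm hn), if_neg hm, if_neg hn, Int.natAbs_mul,
        ArithmeticFunction.cardFactors_mul (Int.natAbs_ne_zero.2 hm) (Int.natAbs_ne_zero.2 hn), pow_add]

lemma lam_one : lam 1 = 1 := by
  unfold lam
  simp

lemma lam_prod {ι : Type} (s : Finset ι) (f : ι → ℤ) : lam (∏ i ∈ s, f i) = ∏ i ∈ s, lam (f i) := by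
  classical
  induction s using Finset.induction_on with
  | empty => simp [lam_one]
  | insert i s hi ih => rw [prod_insert hi, prod_insert hi, lam_mul, ih]

lemma lam_pm {m : ℤ} (hm : m ≠ 0) : lam m = 1 ∨ lam m = -1 := by
  unfold lam
  rw [if_neg hm]
  exact neg_one_pow_eq_or ℤ _

lemma lam_sq {m : ℤ} (hm : m ≠ 0) : lam m * lam m = 1 := by
  rcases lam_pm hm with h | h <;> rw [h] <;> norm_num

lemma lam_nat {n : ℕ} (hn : n ≠ 0) : lam (n : ℤ) = Pool.Agent.H376R2.lam n := by
  unfold lam Pool.Agent.H376R2.lam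
  rw [if_neg (by exact_mod_cast hn), Int.natAbs_natCast]

/-- the number of the `t` in `[1, X]` congruent to `a` modulo `q` with `lam (F t) = e` -/
noncomputable def num (F : ℤ → ℤ) (q : ℕ) (a : ℤ) (X : ℕ) (e : ℤ) : ℕ :=
  ((Icc 1 X).filter (fun t : ℕ => (t : ℤ) ≡ a [ZMOD q] ∧ lam (F t) = e)).card

/-- the common leading coefficient case -/
lemma core (k : ℕ) (hk : Odd k) (M q : ℕ) (hM : 0 < M) (hq : 0 < q) :
    ∃ δ : ℝ, 0 < δ ∧ ∃ X₀ : ℕ, ∀ X : ℕ, X₀ ≤ X → ∀ b : Fin k → ℤ, (∀ i, (|b i| : ℝ) ≤ δ * X) →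
      ∀ a c : ℤ, c ≠ 0 → ∀ e : ℤ, (e = 1 ∨ e = -1) →
        δ * X ≤ (num (fun t => c * ∏ i, ((M : ℤ) * t + b i)) q a X e : ℝ) := by
  obtain ⟨δ₁, hδ₁, N₀, hN⟩ := Pool.Agent.H376R2.main_L k (M * q) hk (Nat.mul_pos hM hq)
  have hqR : (1 : ℝ) ≤ q := by exact_mod_cast hq
  have hMR : (1 : ℝ) ≤ M := by exact_mod_cast hM
  -- the constants
  set δ : ℝ := min (1 / 8) (δ₁ / (16 * q * M)) with hδdef
  have hδ : 0 < δ := lt_min (by norm_num) (by positivity)
  have hδ8 : δ ≤ 1 / 8 := min_le_left _ _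
  have hδq : δ * (16 * q * M) ≤ δ₁ := by
    have h := min_le_right (1 / 8 : ℝ) (δ₁ / (16 * q * M))
    rw [← hδdef] at h
    rwa [le_div_iff₀ (by positivity)] at h
  obtain ⟨X₁, hX₁⟩ := exists_nat_gt (max (16 * ((q : ℝ) + 2)) (max (4 * q * (N₀ + 1))
    (8 * q * (M * (q + 1)) / δ₁)))
  refine ⟨δ, hδ, X₁, fun X hX b hb a c hc e he => ?_⟩
  have hXR : (X₁ : ℝ) ≤ X := by exact_mod_cast hX
  have h1 : 16 * ((q : ℝ) + 2) < X := lt_of_le_of_lt (le_max_left _ _) (lt_of_lt_of_le hX₁ hXR)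
  have h2 : 4 * q * ((N₀ : ℝ) + 1) < X :=
    lt_of_le_of_lt ((le_max_left _ _).trans (le_max_right _ _)) (lt_of_lt_of_le hX₁ hXR)
  have h3 : 8 * q * (M * (q + 1)) / δ₁ < X :=
    lt_of_le_of_lt ((le_max_right _ _).trans (le_max_right _ _)) (lt_of_lt_of_le hX₁ hXR)
  have h3' : 8 * q * (M * (q + 1)) < δ₁ * X := by
    rw [div_lt_iff₀ hδ₁] at h3
    linarith
  have hXpos : (0 : ℝ) < X := by nlinarith
  -- the starting point
  set B : ℕ := ⌈δ * X⌉₊ with hB
  have hB1 : δ * X ≤ B := Nat.le_ceil _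
  have hB2 : (B : ℝ) < δ * X + 1 := Nat.ceil_lt_add_one (by positivity)
  set r : ℕ := ((a - B) % q).toNat with hr
  have hrz : (r : ℤ) = (a - B) % q := Int.toNat_of_nonneg (Int.emod_nonneg _ (by exact_mod_cast hq.ne'))
  have hrq : r < q := by
    have := Int.emod_lt_of_pos (a - B) (by exact_mod_cast hq : (0 : ℤ) < q)
    rw [← hrz] at this
    exact_mod_cast this
  set t₀ : ℕ := B + r with ht₀
  have ht₀a : (t₀ : ℤ) ≡ a [ZMOD q] := by
    have : (r : ℤ) ≡ a - B [ZMOD q] := by
      rw [hrz]; exact Int.mod_modEq _ _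
    have h := this.add_left (B : ℤ)
    rw [ht₀]
    push_cast
    simpa using h
  have hrqR : (r : ℝ) + 1 ≤ q := by exact_mod_cast hrq
  have ht₀R : (t₀ : ℝ) < δ * X + q := by
    rw [ht₀]; push_cast; linarith
  set N : ℕ := (X - t₀) / q with hNdef
  have ht₀X : t₀ ≤ X := by
    have : (t₀ : ℝ) ≤ X := by nlinarith
    exact_mod_cast this
  have hNX : N * q + t₀ ≤ X := by
    have := Nat.div_mul_le_self (X - t₀) q
    rw [← hNdef] at this
    omega
  have hNlow : (X : ℝ) / (2 * q) ≤ N := by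
    have hh : X - t₀ < q * (N + 1) := by
      have := Nat.lt_mul_div_succ (X - t₀) hq
      rw [← hNdef] at this
      exact this
    have hh' : (X : ℝ) < q * (N + 1) + t₀ := by
      have : X < q * (N + 1) + t₀ := by omega
      exact_mod_cast this
    rw [div_le_iff₀ (by positivity)]
    nlinarith
  have hNN : N₀ ≤ N := by
    have : (N₀ : ℝ) ≤ N := by
      refine le_trans ?_ hNlow
      rw [le_div_iff₀ (by positivity)]
      nlinarith
    exact_mod_cast this
  -- the shifts
  have hbpos : ∀ i, 0 ≤ (M : ℤ) * t₀ + b i := by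
    intro i
    have h := hb i
    have h' : -(b i : ℝ) ≤ B := by
      have := neg_abs_le (b i : ℝ)
      linarith
    have h'' : -(b i) ≤ (B : ℤ) := by exact_mod_cast h'
    have hM1 : (1 : ℤ) ≤ M := by exact_mod_cast hM
    have ht1 : (B : ℤ) ≤ t₀ := by rw [ht₀]; push_cast; omega
    nlinarith
  set b' : Fin k → ℕ := fun i => ((M : ℤ) * t₀ + b i).toNat with hb'
  have hb'z : ∀ i, (b' i : ℤ) = (M : ℤ) * t₀ + b i := fun i => Int.toNat_of_nonneg (hbpos i)
  have hb'le : ∀ i, (b' i : ℝ) ≤ δ₁ * N := by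
    intro i
    have e1 : (b' i : ℝ) = M * t₀ + b i := by exact_mod_cast hb'z i
    have e2 : (b i : ℝ) ≤ δ * X := (le_abs_self _).trans (hb i)
    have e3 : δ₁ * (X / (2 * q)) ≤ δ₁ * N := mul_le_mul_of_nonneg_left hNlow hδ₁.le
    refine le_trans ?_ e3
    rw [e1, mul_div_assoc', le_div_iff₀ (by positivity)]
    have e4 : (M * t₀ + b i : ℝ) ≤ M * (δ * X + q) + δ * X :=
      add_le_add (mul_le_mul_of_nonneg_left ht₀R.le (by positivity)) e2
    have e5 : (M * (δ * X + q) + δ * X : ℝ) ≤ 2 * M * δ * X + M * q := by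
      have : 1 * (δ * X) ≤ M * (δ * X) := mul_le_mul_of_nonneg_right hMR (by positivity)
      linarith
    have e6 : (M * t₀ + b i : ℝ) * (2 * q) ≤ (2 * M * δ * X + M * q) * (2 * q) :=
      mul_le_mul_of_nonneg_right (e4.trans e5) (by positivity)
    have e7 : (2 * M * δ * X + M * q) * (2 * q) = (δ * (16 * q * M)) * X / 4 + 2 * (q * (M * q)) := by ring
    have e8 : (δ * (16 * q * M)) * X ≤ δ₁ * X := mul_le_mul_of_nonneg_right hδq hXpos.le
    have e9 : (q : ℝ) * (M * q) ≤ q * (M * (q + 1)) := by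
      have h0 : (0 : ℝ) ≤ q * M := by positivity
      have h1 : (q : ℝ) * (M * (q + 1)) = q * (M * q) + q * M := by ring
      linarith
    rw [e7] at e6
    have e11 : 8 * ((q : ℝ) * (M * (q + 1))) < δ₁ * X := by linarith
    have e12 : 0 < δ₁ * X := mul_pos hδ₁ hXpos
    linarith
  -- the sign
  set σ : ℤ := e * lam c with hσ
  have hσ' : σ = 1 ∨ σ = -1 := by
    rcases he with h | h <;> rcases lam_pm hc with h' | h' <;> rw [hσ, h, h'] <;> norm_num
  have key := hN N hNN b' hb'le σ hσ'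
  have hcard : ((Icc 1 N).filter (fun n => ∏ i, Pool.Agent.H376R2.lam (M * q * n + b' i) = σ)).card ≤
      num (fun t => c * ∏ i, ((M : ℤ) * t + b i)) q a X e := by
    unfold num
    apply Finset.card_le_card_of_injOn (fun n => t₀ + q * n)
    · intro n hn
      rw [mem_coe, mem_filter, mem_Icc] at hn
      obtain ⟨⟨hn1, hn2⟩, hns⟩ := hn
      rw [mem_coe, mem_filter, mem_Icc]
      refine ⟨⟨?_, ?_⟩, ?_, ?_⟩
      · have : 0 < q * n := Nat.mul_pos hq hn1
        show 1 ≤ t₀ + q * n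
        omega
      · show t₀ + q * n ≤ X
        have : q * n ≤ q * N := Nat.mul_le_mul_left _ hn2
        have hc' : q * N = N * q := Nat.mul_comm _ _
        omega
      · show ((t₀ + q * n : ℕ) : ℤ) ≡ a [ZMOD q]
        push_cast
        have h0 : (q : ℤ) * n ≡ 0 [ZMOD q] := Int.modEq_zero_iff_dvd.2 (dvd_mul_right _ _)
        have := ht₀a.add h0
        simpa using this
      · show lam (c * ∏ i, ((M : ℤ) * ((t₀ + q * n : ℕ) : ℤ) + b i)) = e
        rw [lam_mul, lam_prod]
        have hterm : ∀ i, lam ((M : ℤ) * ((t₀ + q * n : ℕ) : ℤ) + b i) =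
            Pool.Agent.H376R2.lam (M * q * n + b' i) := by
          intro i
          rw [← lam_nat (by
            have : 0 < M * q * n := Nat.mul_pos (Nat.mul_pos hM hq) hn1
            omega)]
          congr 1
          push_cast
          rw [hb'z i]
          ring
        rw [prod_congr rfl (fun i _ => hterm i), hns, hσ]
        have := lam_sq hc
        calc lam c * (e * lam c) = e * (lam c * lam c) := by ring
          _ = e := by rw [this, mul_one]
    · intro n _ n' _ hnn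
      have h : t₀ + q * n = t₀ + q * n' := hnn
      have h' : q * n = q * n' := by omega
      exact Nat.eq_of_mul_eq_mul_left hq h'
  have hcardR : ((((Icc 1 N).filter (fun n => ∏ i, Pool.Agent.H376R2.lam (M * q * n + b' i) = σ)).card : ℕ) : ℝ) ≤
      num (fun t => c * ∏ i, ((M : ℤ) * t + b i)) q a X e := by exact_mod_cast hcard
  refine le_trans ?_ (key.trans hcardR)
  have e3 : δ₁ * (X / (2 * q)) ≤ δ₁ * N := mul_le_mul_of_nonneg_left hNlow hδ₁.le
  refine le_trans ?_ e3
  rw [mul_div_assoc', le_div_iff₀ (by positivity)]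
  have e8 : (δ * (16 * q * M)) * X ≤ δ₁ * X := mul_le_mul_of_nonneg_right hδq hXpos.le
  have e10 : δ * X * (2 * q) ≤ (δ * (16 * q * M)) * X := by
    have : (0 : ℝ) ≤ δ * X * q := by positivity
    nlinarith
  linarith

/-- both signs at least `δ X` times make the sum smaller than the trivial bound by `2 δ X` -/
lemma sum_le (F : ℤ → ℤ) (q : ℕ) (a : ℤ) (X : ℕ) (δ : ℝ)
    (h : ∀ e : ℤ, (e = 1 ∨ e = -1) → δ * X ≤ (num F q a X e : ℝ)) :
    |((∑ t ∈ (Icc 1 X).filter (fun t : ℕ => (t : ℤ) ≡ a [ZMOD q]), lam (F t) : ℤ) : ℝ)| ≤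
      (((Icc 1 X).filter (fun t : ℕ => (t : ℤ) ≡ a [ZMOD q])).card : ℝ) - 2 * δ * X := by
  classical
  set S := (Icc 1 X).filter (fun t : ℕ => (t : ℤ) ≡ a [ZMOD q]) with hS
  have hn : ∀ e : ℤ, num F q a X e = (S.filter (fun t : ℕ => lam (F t) = e)).card := by
    intro e
    unfold num
    rw [hS, filter_filter]
  have hp := h 1 (Or.inl rfl)
  have hm := h (-1) (Or.inr rfl)
  rw [hn] at hp hm
  -- upper bound
  have hup : ∑ t ∈ S, lam (F t) ≤ (S.card : ℤ) - 2 * (S.filter (fun t : ℕ => lam (F t) = -1)).card := by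
    have : ∀ t ∈ S, lam (F t) ≤ 1 - 2 * (if lam (F t) = -1 then 1 else 0) := by
      intro t _
      by_cases h0 : F t = 0
      · have : lam (F t) = 0 := by unfold lam; rw [if_pos h0]
        rw [this]; norm_num
      · rcases lam_pm h0 with h1 | h1 <;> rw [h1] <;> norm_num
    refine (sum_le_sum this).trans ?_
    rw [sum_sub_distrib, ← mul_sum, sum_boole]
    simp
  have hlo : -((S.card : ℤ) - 2 * (S.filter (fun t : ℕ => lam (F t) = 1)).card) ≤ ∑ t ∈ S, lam (F t) := by
    have : ∀ t ∈ S, -(1 - 2 * (if lam (F t) = 1 then 1 else 0)) ≤ lam (F t) := by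
      intro t _
      by_cases h0 : F t = 0
      · have : lam (F t) = 0 := by unfold lam; rw [if_pos h0]
        rw [this]; norm_num
      · rcases lam_pm h0 with h1 | h1 <;> rw [h1] <;> norm_num
    refine le_trans ?_ (sum_le_sum this)
    rw [sum_neg_distrib, sum_sub_distrib, ← mul_sum, sum_boole]
    simp
  have hup' : ((∑ t ∈ S, lam (F t) : ℤ) : ℝ) ≤
      (S.card : ℝ) - 2 * (S.filter (fun t : ℕ => lam (F t) = -1)).card := by exact_mod_cast hup
  have hlo' : -((S.card : ℝ) - 2 * (S.filter (fun t : ℕ => lam (F t) = 1)).card) ≤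
      ((∑ t ∈ S, lam (F t) : ℤ) : ℝ) := by exact_mod_cast hlo
  rw [abs_le]
  constructor <;> linarith

lemma num_congr {F G : ℤ → ℤ} (h : ∀ t : ℤ, lam (F t) = lam (G t)) (q : ℕ) (a : ℤ) (X : ℕ) (e : ℤ) :
    num F q a X e = num G q a X e := by
  unfold num
  congr 1
  apply filter_congr
  intro t _
  rw [h]

/-- **Split polynomials of odd degree: both signs, uniformly.**
(1) Let `k` be odd, `m 0, …, m (k-1) ≥ 1` and `q ≥ 1`. There are `δ > 0` and `X₀` such that for all
`X ≥ X₀`, all integers `b i` with `|b i| ≤ δ X`, all `a` and all `c ≠ 0`, each of the values `1` and `-1` is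
taken by `lam (c ∏ (m i t + b i))` for at least `δ X` of the `t` in `[1, X]` congruent to `a` modulo `q`;
so the sum over these `t` is smaller than their number by at least `2 δ X` in absolute value.
(2) The same for every `f ∈ ℤ[T]` of odd degree which is a product of linear factors over `ℚ`. -/
theorem result :
    (∀ (k : ℕ), Odd k → ∀ (m : Fin k → ℕ), (∀ i, 0 < m i) → ∀ (q : ℕ), 0 < q →
      ∃ δ : ℝ, 0 < δ ∧ ∃ X₀ : ℕ, ∀ X : ℕ, X₀ ≤ X → ∀ b : Fin k → ℤ, (∀ i, (|b i| : ℝ) ≤ δ * X) →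
        ∀ a c : ℤ, c ≠ 0 →
          (∀ e : ℤ, (e = 1 ∨ e = -1) →
            δ * X ≤ (((Icc 1 X).filter (fun t : ℕ => (t : ℤ) ≡ a [ZMOD q] ∧
              lam (c * ∏ i, ((m i : ℤ) * t + b i)) = e)).card : ℝ)) ∧
          |((∑ t ∈ (Icc 1 X).filter (fun t : ℕ => (t : ℤ) ≡ a [ZMOD q]),
              lam (c * ∏ i, ((m i : ℤ) * t + b i)) : ℤ) : ℝ)| ≤
            (((Icc 1 X).filter (fun t : ℕ => (t : ℤ) ≡ a [ZMOD q])).card : ℝ) - 2 * δ * X) ∧
    (∀ f : ℤ[X], (f.map (Int.castRingHom ℚ)).Splits → Odd f.natDegree → ∀ (q : ℕ), 0 < q →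
      ∃ δ : ℝ, 0 < δ ∧ ∃ X₀ : ℕ, ∀ X : ℕ, X₀ ≤ X → ∀ a : ℤ,
          (∀ e : ℤ, (e = 1 ∨ e = -1) →
            δ * X ≤ (((Icc 1 X).filter (fun t : ℕ => (t : ℤ) ≡ a [ZMOD q] ∧
              lam (f.eval (t : ℤ)) = e)).card : ℝ)) ∧
          |((∑ t ∈ (Icc 1 X).filter (fun t : ℕ => (t : ℤ) ≡ a [ZMOD q]), lam (f.eval (t : ℤ)) : ℤ) : ℝ)| ≤
            (((Icc 1 X).filter (fun t : ℕ => (t : ℤ) ≡ a [ZMOD q])).card : ℝ) - 2 * δ * X) := by
  refine ⟨?_, ?_⟩
  · intro k hk m hm q hq
    set M : ℕ := ∏ i, m i with hMdef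
    have hM : 0 < M := prod_pos (fun i _ => hm i)
    have hdvd : ∀ i, m i ∣ M := fun i => dvd_prod_of_mem m (mem_univ i)
    obtain ⟨δ, hδ, X₀, h⟩ := core k hk M q hM hq
    have hMR : (1 : ℝ) ≤ M := by exact_mod_cast hM
    refine ⟨δ / M, by positivity, X₀, fun X hX b hb a c hc => ?_⟩
    set b' : Fin k → ℤ := fun i => ((M / m i : ℕ) : ℤ) * b i with hb'
    set D : ℤ := ∏ i, ((M / m i : ℕ) : ℤ) with hD
    have hDi : ∀ i, 0 < M / m i := fun i => Nat.div_pos (Nat.le_of_dvd hM (hdvd i)) (hm i)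
    have hD0 : D ≠ 0 := by
      rw [hD, prod_ne_zero_iff]
      intro i _
      exact_mod_cast (hDi i).ne'
    have hb'le : ∀ i, (|b' i| : ℝ) ≤ δ * X := by
      intro i
      have h1 : ((M / m i : ℕ) : ℝ) ≤ M := by exact_mod_cast Nat.div_le_self _ _
      have h2 := hb i
      have h3 : (|(b' i : ℝ)|) = ((M / m i : ℕ) : ℝ) * |(b i : ℝ)| := by
        rw [hb']
        show |((((M / m i : ℕ) : ℤ) * b i : ℤ) : ℝ)| = _
        rw [Int.cast_mul, Int.cast_natCast, abs_mul, abs_of_nonneg (Nat.cast_nonneg _)]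
      rw [h3]
      calc ((M / m i : ℕ) : ℝ) * |(b i : ℝ)| ≤ M * (δ / M * X) :=
            mul_le_mul h1 h2 (abs_nonneg _) (by positivity)
        _ = δ * X := by field_simp
    have hlam : ∀ t : ℤ, lam ((c * D) * ∏ i, ((M : ℤ) * t + b' i)) = lam (c * ∏ i, ((m i : ℤ) * t + b i)) := by
      intro t
      have h1 : ∏ i, ((M : ℤ) * t + b' i) = D * ∏ i, ((m i : ℤ) * t + b i) := by
        rw [hD, ← prod_mul_distrib]
        apply prod_congr rfl
        intro i _
        have h2 : (M : ℤ) = ((M / m i : ℕ) : ℤ) * m i := by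
          have := Nat.div_mul_cancel (hdvd i)
          exact_mod_cast this.symm
        rw [hb']
        calc (M : ℤ) * t + ((M / m i : ℕ) : ℤ) * b i =
            (((M / m i : ℕ) : ℤ) * m i) * t + ((M / m i : ℕ) : ℤ) * b i := by rw [← h2]
          _ = ((M / m i : ℕ) : ℤ) * ((m i : ℤ) * t + b i) := by ring
      rw [h1, lam_mul, lam_mul, lam_mul, lam_mul]
      have := lam_sq hD0
      calc lam c * lam D * (lam D * lam (∏ i, ((m i : ℤ) * t + b i))) =
          (lam D * lam D) * (lam c * lam (∏ i, ((m i : ℤ) * t + b i))) := by ring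
        _ = _ := by rw [this, one_mul]
    have hall : ∀ e : ℤ, (e = 1 ∨ e = -1) →
        δ / M * X ≤ (num (fun t => c * ∏ i, ((m i : ℤ) * t + b i)) q a X e : ℝ) := by
      intro e he
      have h1 := h X hX b' hb'le a (c * D) (mul_ne_zero hc hD0) e he
      rw [num_congr hlam] at h1
      refine le_trans ?_ h1
      have : δ / M ≤ δ := div_le_self hδ.le hMR
      exact mul_le_mul_of_nonneg_right this (by positivity)
    exact ⟨fun e he => hall e he, sum_le _ q a X (δ / M) hall⟩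
  · intro f hf hodd q hq
    have hf0 : f ≠ 0 := by
      rintro rfl
      simp at hodd
    set g : ℚ[X] := f.map (Int.castRingHom ℚ) with hg
    have hinj : Function.Injective (Int.castRingHom ℚ) := Int.cast_injective
    have hg0 : g ≠ 0 := by
      rw [hg]
      exact (Polynomial.map_ne_zero_iff hinj).2 hf0
    have hdeg : g.natDegree = f.natDegree := by
      rw [hg]
      exact Polynomial.natDegree_map_eq_of_injective hinj f
    have hcardr : g.roots.card = g.natDegree := hf.natDegree_eq_card_roots.symm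
    set k : ℕ := g.natDegree with hkdef
    have hk : Odd k := by rw [hdeg]; exact hodd
    -- enumerate the roots
    set L : List ℚ := g.roots.toList with hL
    have hLlen : L.length = k := by rw [hL, Multiset.length_toList, hcardr]
    set r : Fin k → ℚ := fun i => L.get (i.cast hLlen.symm) with hr
    have hfac : ∀ t : ℚ, g.eval t = g.leadingCoeff * ∏ i, (t - r i) := by
      intro t
      have h1 := hf.eq_prod_roots
      have h2 : g.eval t = g.leadingCoeff * (g.roots.map (fun x => t - x)).prod := by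
        conv_lhs => rw [h1]
        rw [eval_mul, eval_C, eval_multiset_prod, Multiset.map_map]
        congr 2
        apply Multiset.map_congr rfl
        intro x _
        simp
      rw [h2]
      congr 1
      have h3 : g.roots = (L : Multiset ℚ) := by rw [hL, Multiset.coe_toList]
      rw [h3, Multiset.map_coe, Multiset.prod_coe]
      rw [← List.ofFn_get L, List.map_ofFn, List.prod_ofFn]
      have : ∀ (n : ℕ) (hn : n = k) (s : Fin n → ℚ),
          ∏ i, s i = ∏ i : Fin k, s (i.cast hn.symm) := by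
        intro n hn s
        subst hn
        rfl
      rw [this L.length hLlen]
      apply prod_congr rfl
      intro i _
      simp [hr]
    -- the common denominator
    set M : ℕ := ∏ i, (r i).den with hMdef
    have hM : 0 < M := prod_pos (fun i _ => (r i).den_pos)
    have hdvd : ∀ i, (r i).den ∣ M := fun i => dvd_prod_of_mem (fun i => (r i).den) (mem_univ i)
    set b : Fin k → ℤ := fun i => -(((M / (r i).den : ℕ) : ℤ) * (r i).num) with hb
    have hbr : ∀ i, (b i : ℚ) = -(M * r i) := by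
      intro i
      have h2 : (M : ℚ) = ((M / (r i).den : ℕ) : ℚ) * (r i).den := by
        have := Nat.div_mul_cancel (hdvd i)
        exact_mod_cast this.symm
      have h3 : ((r i).den : ℚ) * r i = (r i).num := Rat.den_mul_eq_num (r i)
      rw [hb]
      show ((-(((M / (r i).den : ℕ) : ℤ) * (r i).num) : ℤ) : ℚ) = _
      rw [Int.cast_neg, Int.cast_mul, Int.cast_natCast, ← h3, ← mul_assoc, ← h2]
    set c : ℤ := f.leadingCoeff with hc
    have hc0 : c ≠ 0 := by rw [hc]; exact leadingCoeff_ne_zero.2 hf0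
    have hlead : g.leadingCoeff = (c : ℚ) := by
      rw [hg, leadingCoeff_map_of_injective hinj, hc]
      simp
    have hval : ∀ t : ℤ, (M : ℤ) ^ k * f.eval t = c * ∏ i, ((M : ℤ) * t + b i) := by
      intro t
      have h1 : ((f.eval t : ℤ) : ℚ) = g.eval (t : ℚ) := by
        rw [hg]
        have := Polynomial.eval_map (Int.castRingHom ℚ) (p := f) (x := (t : ℚ))
        rw [this]
        have h2 : (t : ℚ) = Int.castRingHom ℚ t := rfl
        rw [h2, eval₂_at_apply]
        rfl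
      have h2 : (((M : ℤ) ^ k * f.eval t : ℤ) : ℚ) = ((c * ∏ i, ((M : ℤ) * t + b i) : ℤ) : ℚ) := by
        rw [Int.cast_mul, Int.cast_pow, h1, hfac, hlead, Int.cast_mul, Int.cast_prod]
        have h3 : ∏ i, (((M : ℤ) * t + b i : ℤ) : ℚ) = ((M : ℤ) : ℚ) ^ k * ∏ i, ((t : ℚ) - r i) := by
          have h4 : ∀ i, (((M : ℤ) * t + b i : ℤ) : ℚ) = ((M : ℤ) : ℚ) * ((t : ℚ) - r i) := by
            intro i
            rw [Int.cast_add, Int.cast_mul, hbr i, Int.cast_natCast]
            ring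
          rw [prod_congr rfl (fun i _ => h4 i), prod_mul_distrib, prod_const, card_univ, Fintype.card_fin]
        rw [h3]
        ring
      exact_mod_cast h2
    have hM0 : (M : ℤ) ^ k ≠ 0 := pow_ne_zero _ (by exact_mod_cast hM.ne')
    have hlam : ∀ t : ℤ, lam ((M : ℤ) ^ k * c * ∏ i, ((M : ℤ) * t + b i)) = lam (f.eval t) := by
      intro t
      rw [mul_assoc, ← hval t, lam_mul, lam_mul, ← mul_assoc, lam_sq hM0, one_mul]
    obtain ⟨δ, hδ, X₀, h⟩ := core k hk M q hM hq
    obtain ⟨X₁, hX₁⟩ := exists_nat_gt ((∑ i, |(b i : ℝ)|) / δ)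
    refine ⟨δ, hδ, max X₀ X₁, fun X hX a => ?_⟩
    have hble : ∀ i, (|b i| : ℝ) ≤ δ * X := by
      intro i
      have h1 : |(b i : ℝ)| ≤ ∑ i, |(b i : ℝ)| :=
        single_le_sum (f := fun i => |(b i : ℝ)|) (fun j _ => abs_nonneg _) (mem_univ i)
      have h2 : (X₁ : ℝ) ≤ X := by exact_mod_cast (le_max_right _ _).trans hX
      rw [div_lt_iff₀ hδ] at hX₁
      nlinarith
    have hall : ∀ e : ℤ, (e = 1 ∨ e = -1) → δ * X ≤ (num (fun t => f.eval t) q a X e : ℝ) := by
      intro e he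
      have h1 := h X ((le_max_left _ _).trans hX) b hble a ((M : ℤ) ^ k * c) (mul_ne_zero hM0 hc0) e he
      rwa [num_congr hlam] at h1
    exact ⟨fun e he => hall e he, sum_le _ q a X δ hall⟩

end Pool.Agent.Results.MP_648c71_nt.SplitPolynomialsBothSigns
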